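import Pool.Agent.K6.H92.Deg4b

set_option autoImplicit false
set_option linter.unusedSectionVars false
set_option linter.unusedVariables false

/-!
# Blocks of endomorphisms of a direct sum
-/

open Module

noncomputable section

namespace Pool.Agent.K6.H92.D4

open Pool.Agent.Y114.RM Pool.Agent.Y114.TF Pool.Agent.H204R3.GP Pool.Agent.R913.Adj Pool.Agent

variable {k : Type} [Field k] {ι : Type} [Fintype ι] [DecidableEq ι] {V : ι → Type}
  [∀ i, AddCommGroup (V i)] [∀ i, Module k (V i)]

/-- The endomorphism of the sum with only one block. -/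
def blk (i : ι) : End k (V i) →ₗ[k] End k (∀ i, V i) where
  toFun X := LinearMap.single k V i ∘ₗ X ∘ₗ LinearMap.proj i
  map_add' X Y := by rw [LinearMap.add_comp, LinearMap.comp_add]
  map_smul' c X := by rw [LinearMap.smul_comp, LinearMap.comp_smul]; rfl

/-- The diagonal blocks. -/
def cmp (i : ι) : End k (∀ i, V i) →ₗ[k] End k (V i) where
  toFun X := LinearMap.proj i ∘ₗ X ∘ₗ LinearMap.single k V i
  map_add' X Y := by rw [LinearMap.add_comp, LinearMap.comp_add]
  map_smul' c X := by rw [LinearMap.smul_comp, LinearMap.comp_smul]; rfl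

theorem blk_apply (i : ι) (X : End k (V i)) (x : ∀ i, V i) :
    blk i X x = Pi.single i (X (x i)) := rfl

theorem cmp_apply (i : ι) (X : End k (∀ i, V i)) (x : V i) :
    cmp i X x = X (Pi.single i x) i := rfl

/-- `X` respects the direct sum. -/
def Diag (X : End k (∀ i, V i)) : Prop := ∀ x i, X x i = X (Pi.single i (x i)) i

theorem Diag.apply {X : End k (∀ i, V i)} (h : Diag X) (x : ∀ i, V i) (i : ι) :
    X x i = cmp i X (x i) := h x i

theorem Diag.single {X : End k (∀ i, V i)} (h : Diag X) (i : ι) (x : V i) :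
    X (Pi.single i x) = Pi.single i (cmp i X x) := by
  refine funext fun j => ?_
  rw [h.apply]
  by_cases hj : j = i
  · subst hj
    rw [Pi.single_eq_same, Pi.single_eq_same]
  · rw [Pi.single_eq_of_ne hj, Pi.single_eq_of_ne hj, map_zero]

theorem diag_sum {Γ : Type} [Group Γ] (ρ : ∀ i, Representation k Γ (V i)) (γ : Γ) :
    Diag (sumRep ρ γ) := by
  intro x i
  change ρ i γ (x i) = ρ i γ ((Pi.single i (x i) : ∀ i, V i) i)
  rw [Pi.single_eq_same]

theorem cmp_sum {Γ : Type} [Group Γ] (ρ : ∀ i, Representation k Γ (V i)) (γ : Γ) (i : ι) :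
    cmp i (sumRep ρ γ) = ρ i γ := by
  refine LinearMap.ext fun x => ?_
  change ρ i γ ((Pi.single i x : ∀ i, V i) i) = _
  rw [Pi.single_eq_same]

theorem diag_blk (i : ι) (X : End k (V i)) : Diag (blk (V := V) i X) := by
  intro x j
  rw [blk_apply, blk_apply]
  by_cases hj : j = i
  · subst hj
    rw [Pi.single_eq_same, Pi.single_eq_same, Pi.single_eq_same]
  · rw [Pi.single_eq_of_ne hj, Pi.single_eq_of_ne hj]

theorem cmp_blk (i : ι) (X : End k (V i)) : cmp i (blk (V := V) i X) = X := by
  refine LinearMap.ext fun x => ?_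
  rw [cmp_apply, blk_apply, Pi.single_eq_same, Pi.single_eq_same]

theorem Diag.ext {X Y : End k (∀ i, V i)} (hX : Diag X) (hY : Diag Y)
    (h : ∀ i, cmp i X = cmp i Y) : X = Y := by
  refine LinearMap.ext fun x => funext fun i => ?_
  rw [hX.apply, hY.apply, h]

theorem cmp_mul_left {X : End k (∀ i, V i)} (h : Diag X) (Y : End k (∀ i, V i)) (i : ι) :
    cmp i (X * Y) = cmp i X * cmp i Y := by
  refine LinearMap.ext fun x => ?_
  rw [cmp_apply, Module.End.mul_apply, h.apply, Module.End.mul_apply, cmp_apply i Y]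

theorem cmp_mul_right {X : End k (∀ i, V i)} (h : Diag X) (Y : End k (∀ i, V i)) (i : ι) :
    cmp i (Y * X) = cmp i Y * cmp i X := by
  refine LinearMap.ext fun x => ?_
  rw [cmp_apply, Module.End.mul_apply, h.single, Module.End.mul_apply, cmp_apply i Y]

theorem Diag.mul {X Y : End k (∀ i, V i)} (hX : Diag X) (hY : Diag Y) : Diag (X * Y) := by
  intro x i
  rw [Module.End.mul_apply, Module.End.mul_apply, hX.apply, hY.apply, hY.single, hX.single,
    Pi.single_eq_same]

theorem Diag.sub {X Y : End k (∀ i, V i)} (hX : Diag X) (hY : Diag Y) : Diag (X - Y) := by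
  intro x i
  rw [LinearMap.sub_apply, LinearMap.sub_apply, Pi.sub_apply, Pi.sub_apply, hX x, hY x]

theorem mul_blk {X : End k (∀ i, V i)} (h : Diag X) (i : ι) (Y : End k (V i)) :
    X * blk i Y = blk i (cmp i X * Y) := by
  refine LinearMap.ext fun x => ?_
  rw [Module.End.mul_apply, blk_apply, h.single, blk_apply, Module.End.mul_apply]

theorem blk_mul {X : End k (∀ i, V i)} (h : Diag X) (i : ι) (Y : End k (V i)) :
    blk i Y * X = blk i (Y * cmp i X) := by
  refine LinearMap.ext fun x => ?_
  rw [Module.End.mul_apply, blk_apply, blk_apply, Module.End.mul_apply, h.apply]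

theorem sum_blk_one : ∑ i, blk (V := V) i (1 : End k (V i)) = 1 := by
  refine LinearMap.ext fun x => ?_
  rw [LinearMap.sum_apply]
  simp only [blk_apply, Module.End.one_apply]
  exact Finset.univ_sum_single x

theorem blk_cmp (i : ι) (Z : End k (∀ i, V i)) :
    blk i (cmp i Z) = blk i 1 * Z * blk i 1 := by
  refine LinearMap.ext fun x => ?_
  rw [Module.End.mul_apply, Module.End.mul_apply, blk_apply, blk_apply, blk_apply,
    Module.End.one_apply, Module.End.one_apply, cmp_apply]

variable [∀ i, FiniteDimensional k (V i)]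

theorem trace_diag (Z : End k (∀ i, V i)) {B : End k (∀ i, V i)} (hB : Diag B) :
    LinearMap.trace k (∀ i, V i) (Z * B) =
      LinearMap.trace k (∀ i, V i) ((∑ i, blk i (cmp i Z)) * B) := by
  have h1 : Z * B = ∑ i, blk i (1 : End k (V i)) * (Z * B) := by
    rw [← Finset.sum_mul, sum_blk_one, one_mul]
  have h2 : ∀ i : ι, LinearMap.trace k (∀ i, V i) (blk i (1 : End k (V i)) * (Z * B)) =
      LinearMap.trace k (∀ i, V i) (blk i (cmp i Z) * B) := by
    intro i
    have e1 : blk i (1 : End k (V i)) * blk i 1 = blk (V := V) i 1 := by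
      rw [mul_blk (diag_blk i 1), cmp_blk, one_mul]
    have e2 : B * blk i (1 : End k (V i)) = blk i 1 * B := by
      rw [mul_blk hB, blk_mul hB, mul_one, one_mul]
    calc LinearMap.trace k (∀ i, V i) (blk i (1 : End k (V i)) * (Z * B)) =
        LinearMap.trace k (∀ i, V i) (blk i (1 : End k (V i)) * (blk i 1 * (Z * B))) := by
          rw [← mul_assoc (blk i (1 : End k (V i))) (blk i 1), e1]
      _ = LinearMap.trace k (∀ i, V i) (blk i 1 * (Z * B) * blk i (1 : End k (V i))) :=
          LinearMap.trace_mul_comm k _ _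
      _ = LinearMap.trace k (∀ i, V i) (blk i (cmp i Z) * B) := by
          rw [blk_cmp, mul_assoc, mul_assoc, e2]
          simp only [mul_assoc]
  rw [Finset.sum_mul, map_sum]
  conv_lhs => rw [h1, map_sum]
  exact Finset.sum_congr rfl fun i _ => h2 i

/-- The orthogonal projection only depends on the diagonal blocks. -/
theorem proj_diag {L : Submodule k (End k (∀ i, V i))} (hL : NonDeg L) (hd : ∀ X ∈ L, Diag X)
    {p : End k (End k (∀ i, V i))} (hp : IsOrthProj L p) (Z : End k (∀ i, V i)) :
    p Z = ∑ i, p (blk i (cmp i Z)) := by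
  rw [← map_sum]
  refine hp.unique hL (hp _).1 fun Y hY => ?_
  rw [sub_mul, map_sub, trace_diag Z (hd Y hY), ← map_sub, ← sub_mul]
  exact (hp _).2 Y hY

end Pool.Agent.K6.H92.D4

end
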