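import Pool.Agent.K6.H92.Deg4d

set_option autoImplicit false
set_option linter.unusedSectionVars false
set_option linter.unusedVariables false

/-!
# The degree-four principle, main part
-/

open Module

noncomputable section

namespace Pool.Agent.K6.H92.D4

open Pool.Agent.Y114.RM Pool.Agent.Y114.TF Pool.Agent.H204R3.GP Pool.Agent.R913.Adj Pool.Agent

section gen

variable {k V Γ : Type} [Field k] [AddCommGroup V] [Module k V] [Group Γ]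

/-- `L` consists of the endomorphisms which kill all Tate tensors. -/
def IsTL (ρ : Representation k Γ V) (L : Submodule k (End k V)) : Prop :=
  ∀ X, X ∈ L ↔ ∀ (m : ℕ) (φ : Tensor k V m), TateTensor ρ φ → KillsTensor X φ

/-- Tate tensors killed by the brackets are killed by `𝔤`. -/
def AbT (ρ : Representation k Γ V) (𝔤 : Submodule k (End k V)) : Prop :=
  ∀ (m : ℕ) (φ : Tensor k V m), TateTensor ρ φ →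
    (∀ X ∈ 𝔤, ∀ Y ∈ 𝔤, KillsTensor (X * Y - Y * X) φ) → ∀ X ∈ 𝔤, KillsTensor X φ

/-- all Tate tensors are killed by `𝔤` -/
def AllT (ρ : Representation k Γ V) (𝔤 : Submodule k (End k V)) : Prop :=
  FiniteIndexSemisimple ρ ∧
    ∀ (m : ℕ) (φ : Tensor k V m), TateTensor ρ φ ↔ ∀ X ∈ 𝔤, KillsTensor X φ

end gen

variable {ι : Type} [Fintype ι] [DecidableEq ι] {n : ι → ℕ} {ℓ : ℕ} [hℓ : Fact ℓ.Prime]
  {Γ : Type} [Group Γ] [TopologicalSpace Γ] [IsTopologicalGroup Γ] [CompactSpace Γ]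
  {ρ : ∀ i, Representation ℚ_[ℓ] Γ (Fin (n i) → ℚ_[ℓ])}

/-- The Lie algebra of the Tate tensors and the projection. -/
theorem exists_Lp (hρ : ∀ i, Continuous fun g => LinearMap.toMatrix' (ρ i g))
    (hss : FiniteIndexSemisimple (sumRep ρ)) :
    ∃ (L : Submodule ℚ_[ℓ] (End ℚ_[ℓ] (∀ i, Fin (n i) → ℚ_[ℓ])))
      (p : End ℚ_[ℓ] (End ℚ_[ℓ] (∀ i, Fin (n i) → ℚ_[ℓ]))),
      IsTL (sumRep ρ) L ∧ IsLie L ∧ NonDeg L ∧ IsOrthProj L p ∧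
      (∀ γ, ∀ X ∈ L, AdE (sumRep ρ γ) (sumRep ρ γ⁻¹) X ∈ L) ∧
      (∃ Δ : Subgroup Γ, Δ.FiniteIndex ∧ ∀ Z, (∀ X ∈ L, X * Z = Z * X) →
        ∀ γ ∈ Δ, Z * sumRep ρ γ = sumRep ρ γ * Z) := by
  obtain ⟨L, hL, hLie, hAd, -⟩ := Y41.RM.lieL' ℚ_[ℓ] (∀ i, Fin (n i) → ℚ_[ℓ]) Γ (sumRep ρ)
  have hnd : NonDeg L := nonDeg_of_semisimple hss hL hLie hAd
  obtain ⟨p, hp⟩ := exists_proj hnd
  obtain ⟨Δ, hΔ, hcΔ⟩ := Y220.RM.tfr ℓ ι n Γ ρ hρ (comm L) (comm_conj hAd) (comm_order hL)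
  exact ⟨L, p, fun X => ⟨fun hX => ((hL X).1 hX).2, fun hX =>
    (hL X).2 (mem_LT_of_semisimple (sumRep ρ) hss hX)⟩, hLie, hnd, hp, hAd, Δ, hΔ,
    fun Z hZ γ hγ => (hcΔ γ hγ Z hZ).symm⟩

/-- Elements commuting with the projection and with the degree two Tate classes. -/
theorem decomp_gen {L : Submodule ℚ_[ℓ] (End ℚ_[ℓ] (∀ i, Fin (n i) → ℚ_[ℓ]))}
    {p : End ℚ_[ℓ] (End ℚ_[ℓ] (∀ i, Fin (n i) → ℚ_[ℓ]))} (hL : IsTL (sumRep ρ) L)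
    (hLie : IsLie L) (hnd : NonDeg L) (hp : IsOrthProj L p)
    (hΔ : ∃ Δ : Subgroup Γ, Δ.FiniteIndex ∧ ∀ Z, (∀ X ∈ L, X * Z = Z * X) →
        ∀ γ ∈ Δ, Z * sumRep ρ γ = sumRep ρ γ * Z)
    {X : End ℚ_[ℓ] (∀ i, Fin (n i) → ℚ_[ℓ])}
    (hX : ∀ P : End ℚ_[ℓ] (∀ i, Fin (n i) → ℚ_[ℓ]),
      (∃ Δ : Subgroup Γ, Δ.FiniteIndex ∧ ∀ γ ∈ Δ, P * sumRep ρ γ = sumRep ρ γ * P) →
      X * P = P * X)
    (hXp : ∀ Y, p (X * Y - Y * X) = X * p Y - p Y * X) :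
    (∃ Δ : Subgroup Γ, Δ.FiniteIndex ∧
      ∀ γ ∈ Δ, (X - p X) * sumRep ρ γ = sumRep ρ γ * (X - p X)) ∧
    ∀ P : End ℚ_[ℓ] (∀ i, Fin (n i) → ℚ_[ℓ]),
      (∃ Δ : Subgroup Γ, Δ.FiniteIndex ∧ ∀ γ ∈ Δ, P * sumRep ρ γ = sumRep ρ γ * P) →
      (X - p X) * P = P * (X - p X) := by
  have h1 := decomp hLie hnd hp hXp
  obtain ⟨Δ, hΔ, hc⟩ := hΔ
  refine ⟨⟨Δ, hΔ, hc _ fun Y hY => (h1 Y hY).symm⟩, ?_⟩
  rintro P ⟨Δ', hΔ', hP⟩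
  have h2 := tate_comm (sumRep ρ) ((hL (p X)).1 (hp X).1) hΔ' hP
  rw [sub_mul, mul_sub, hX P ⟨Δ', hΔ', hP⟩, h2]

/-- the core of the argument -/
theorem core {𝔤 L : Submodule ℚ_[ℓ] (End ℚ_[ℓ] (∀ i, Fin (n i) → ℚ_[ℓ]))}
    {p : End ℚ_[ℓ] (End ℚ_[ℓ] (∀ i, Fin (n i) → ℚ_[ℓ]))}
    (hLie : IsLie L) (hnd : NonDeg L) (hp : IsOrthProj L p)
    (hΔ : ∃ Δ : Subgroup Γ, Δ.FiniteIndex ∧ ∀ Z, (∀ X ∈ L, X * Z = Z * X) →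
        ∀ γ ∈ Δ, Z * sumRep ρ γ = sumRep ρ γ * Z)
    (hE : R918.Ell.EndTate (sumRep ρ) 𝔤) (hP : ProjT 𝔤 p) :
    ∀ X ∈ 𝔤, ∀ Z ∈ 𝔤, (X - p X) * Z = Z * (X - p X) := by
  intro X hX Z hZ
  have h1 := decomp hLie hnd hp (hP X hX)
  obtain ⟨Δ, hΔ, hc⟩ := hΔ
  exact (hE _ ⟨Δ, hΔ, hc _ fun Y hY => (h1 Y hY).symm⟩ Z hZ).symm

theorem kills_sub {k V : Type} [Field k] [AddCommGroup V] [Module k V] {X Y : End k V} {m : ℕ}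
    {φ : Tensor k V m} (hX : KillsTensor X φ) (hY : KillsTensor (Y - X) φ) :
    KillsTensor Y φ := by
  intro v
  have h1 : ∀ l, φ (Function.update v l (lie Y (v l))) =
      φ (Function.update v l (lie X (v l))) + φ (Function.update v l (lie (Y - X) (v l))) := by
    intro l
    rw [← φ.map_update_add]
    congr 2
    have h2 : lie Y = lie X + lie (Y - X) := by
      refine LinearMap.ext fun a => ?_
      refine Prod.ext ?_ ?_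
      · change Y a.1 = X a.1 + (Y - X) a.1
        rw [LinearMap.sub_apply]
        abel
      · change -(Y.dualMap a.2) = -(X.dualMap a.2) + -((Y - X).dualMap a.2)
        refine LinearMap.ext fun b => ?_
        change -(a.2 (Y b)) = -(a.2 (X b)) + -(a.2 ((Y - X) b))
        rw [LinearMap.sub_apply, map_sub]
        ring
    rw [h2]
    rfl
  simp only [h1, Finset.sum_add_distrib]
  rw [hX v, hY v, add_zero]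

section motivic

variable {𝔤 : Submodule ℚ_[ℓ] (End ℚ_[ℓ] (∀ i, Fin (n i) → ℚ_[ℓ]))}

theorem L_le (h𝔤 : IsMotivic ρ 𝔤) {L : Submodule ℚ_[ℓ] (End ℚ_[ℓ] (∀ i, Fin (n i) → ℚ_[ℓ]))}
    (hL : IsTL (sumRep ρ) L) : L ≤ 𝔤 := fun X hX => h𝔤.algebraic X fun m φ h =>
  (hL X).1 hX m φ (h𝔤.tate m φ h)

theorem allT_of_le (h𝔤 : IsMotivic ρ 𝔤) (hss : FiniteIndexSemisimple (sumRep ρ))
    {L : Submodule ℚ_[ℓ] (End ℚ_[ℓ] (∀ i, Fin (n i) → ℚ_[ℓ]))}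
    (hL : IsTL (sumRep ρ) L) (h : 𝔤 ≤ L) : AllT (sumRep ρ) 𝔤 :=
  ⟨hss, fun m φ => ⟨fun hφ X hX => (hL X).1 (h hX) m φ hφ, fun hφ => h𝔤.tate m φ hφ⟩⟩

/-- the derived algebra is in `L` -/
theorem bracket_mem {L : Submodule ℚ_[ℓ] (End ℚ_[ℓ] (∀ i, Fin (n i) → ℚ_[ℓ]))}
    {p : End ℚ_[ℓ] (End ℚ_[ℓ] (∀ i, Fin (n i) → ℚ_[ℓ]))} (hLG : L ≤ 𝔤) (hLie : IsLie L)
    (hp : IsOrthProj L p)
    (hc : ∀ X ∈ 𝔤, ∀ Z ∈ 𝔤, (X - p X) * Z = Z * (X - p X)) :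
    ∀ X ∈ 𝔤, ∀ Y ∈ 𝔤, X * Y - Y * X ∈ L := by
  intro X hX Y hY
  have e1 : X * Y - Y * X = (p X * p Y - p Y * p X) + ((X - p X) * Y - Y * (X - p X)) +
      (p X * (Y - p Y) - (Y - p Y) * p X) := by
    simp only [sub_mul, mul_sub]
    abel
  have h1 := hc X hX Y hY
  have h2 := hc Y hY (p X) (hLG (hp X).1)
  rw [e1, h1, h2, sub_self, sub_self, add_zero, add_zero]
  exact hLie _ (hp X).1 _ (hp Y).1

theorem allT_of_ab (h𝔤 : IsMotivic ρ 𝔤) (hss : FiniteIndexSemisimple (sumRep ρ))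
    {L : Submodule ℚ_[ℓ] (End ℚ_[ℓ] (∀ i, Fin (n i) → ℚ_[ℓ]))}
    (hL : IsTL (sumRep ρ) L) (hb : ∀ X ∈ 𝔤, ∀ Y ∈ 𝔤, X * Y - Y * X ∈ L)
    (hab : AbT (sumRep ρ) 𝔤) : AllT (sumRep ρ) 𝔤 :=
  ⟨hss, fun m φ => ⟨fun hφ X hX => hab m φ hφ (fun X hX Y hY => (hL _).1 (hb X hX Y hY) m φ hφ)
    X hX, fun hφ => h𝔤.tate m φ hφ⟩⟩

theorem AllT.ab (h : AllT (sumRep ρ) 𝔤) : AbT (sumRep ρ) 𝔤 := fun m φ hφ _ => (h.2 m φ).1 hφ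

theorem AllT.hom (h𝔤 : IsMotivic ρ 𝔤) (h : AllT (sumRep ρ) 𝔤) : HomT ρ 𝔤 :=
  homT_of (fun X hX => h𝔤.parts X hX) (by
    rintro P ⟨Δ, hΔ, hP⟩ X hX
    exact tate_comm (sumRep ρ) (fun m φ hφ => (h.2 m φ).1 hφ X hX) hΔ hP)

theorem AllT.homEnd (h𝔤 : IsMotivic ρ 𝔤) (h : AllT (sumRep ρ) 𝔤) : HomEndT ρ 𝔤 :=
  homEndT_of (fun X hX => h𝔤.parts X hX) fun φ hφ => (h.2 4 φ).1 hφ

/-- **Main equivalence.** -/
theorem main_iff (hρ : ∀ i, Continuous fun g => LinearMap.toMatrix' (ρ i g))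
    (h𝔤 : IsMotivic ρ 𝔤) : AllT (sumRep ρ) 𝔤 ↔
      FiniteIndexSemisimple (sumRep ρ) ∧ HomT ρ 𝔤 ∧ HomEndT ρ 𝔤 ∧ AbT (sumRep ρ) 𝔤 := by
  refine ⟨fun h => ⟨h.1, h.hom h𝔤, h.homEnd h𝔤, h.ab⟩, ?_⟩
  rintro ⟨hss, h1, h2, h3⟩
  obtain ⟨L, p, hL, hLie, hnd, hp, hAd, hΔ⟩ := exists_Lp hρ hss
  have hd : ∀ X ∈ 𝔤, Diag X := fun X hX => h𝔤.parts X hX
  have hLG := L_le h𝔤 hL
  have hP := projT_of_homEndT hd h𝔤.bracket hnd hLG hAd hp h2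
  have hc := core hLie hnd hp hΔ (endTate_of_homT hd h1) hP
  exact allT_of_ab h𝔤 hss hL (bracket_mem hLG hLie hp hc) h3

/-- The centre consists of multiples of the weight operator. -/
def WeightC (𝔤 : Submodule ℚ_[ℓ] (End ℚ_[ℓ] (∀ i, Fin (n i) → ℚ_[ℓ]))) (w : ι → ℤ) : Prop :=
  ∀ Z ∈ 𝔤, (∀ X ∈ 𝔤, Z * X = X * Z) →
    ∃ c : ℚ_[ℓ], Z = c • weightOp (k := ℚ_[ℓ]) (fun i => Fin (n i) → ℚ_[ℓ]) w

theorem weight_iff (hρ : ∀ i, Continuous fun g => LinearMap.toMatrix' (ρ i g))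
    (h𝔤 : IsMotivic ρ 𝔤) (w : ι → ℤ) (hC : WeightC 𝔤 w)
    (hw : w ≠ 0 → ∃ γ, ActsPurely ρ w γ) :
    AllT (sumRep ρ) 𝔤 ↔ FiniteIndexSemisimple (sumRep ρ) ∧ HomT ρ 𝔤 ∧ HomEndT ρ 𝔤 := by
  refine ⟨fun h => ⟨h.1, h.hom h𝔤, h.homEnd h𝔤⟩, ?_⟩
  rintro ⟨hss, h1, h2⟩
  obtain ⟨L, p, hL, hLie, hnd, hp, hAd, hΔ⟩ := exists_Lp hρ hss
  have hd : ∀ X ∈ 𝔤, Diag X := fun X hX => h𝔤.parts X hX
  have hLG := L_le h𝔤 hL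
  have hP := projT_of_homEndT hd h𝔤.bracket hnd hLG hAd hp h2
  have hc := core hLie hnd hp hΔ (endTate_of_homT hd h1) hP
  have hwL : weightOp (k := ℚ_[ℓ]) (fun i => Fin (n i) → ℚ_[ℓ]) w ∈ L := by
    by_cases hw0 : w = 0
    · have h4 : weightOp (k := ℚ_[ℓ]) (fun i : ι => Fin (n i) → ℚ_[ℓ]) w = 0 := by
        rw [hw0]
        refine LinearMap.ext fun x => funext fun i => ?_
        change ((0 : ℤ) : ℚ_[ℓ]) • x i = 0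
        rw [Int.cast_zero, zero_smul]
      rw [h4]
      exact L.zero_mem
    · obtain ⟨γ, hγ⟩ := hw hw0
      exact (hL _).2 fun m φ hφ => weight_kills ρ hss hγ m φ hφ
  refine allT_of_le h𝔤 hss hL fun X hX => ?_
  obtain ⟨c, hcX⟩ := hC (X - p X) (𝔤.sub_mem hX (hLG (hp X).1)) fun Y hY => hc X hX Y hY
  have h5 : X = p X + c • weightOp (k := ℚ_[ℓ]) (fun i => Fin (n i) → ℚ_[ℓ]) w := by
    rw [← hcX]
    abel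
  rw [h5]
  exact L.add_mem (hp X).1 (L.smul_mem c hwL)

/-- The determinant condition: for every nonzero element `Z` of the centre of `𝔤` there are an
element `γ` and an additive function `θ` such that the trace of the product of `Z` and of the operator
which is the multiplication by `θ β` on the generalized eigenspaces of `γ` is not zero. -/
def DetC (ρ : ∀ i, Representation ℚ_[ℓ] Γ (Fin (n i) → ℚ_[ℓ]))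
    (𝔤 : Submodule ℚ_[ℓ] (End ℚ_[ℓ] (∀ i, Fin (n i) → ℚ_[ℓ]))) : Prop :=
  ∀ Z ∈ 𝔤, (∀ X ∈ 𝔤, Z * X = X * Z) → Z ≠ 0 →
    ∃ (γ : Γ) (θ : Additive (AlgebraicClosure ℚ_[ℓ])ˣ →+ AlgebraicClosure ℚ_[ℓ])
      (Y : End (AlgebraicClosure ℚ_[ℓ])
        (TensorProduct ℚ_[ℓ] (AlgebraicClosure ℚ_[ℓ]) (∀ i, Fin (n i) → ℚ_[ℓ]))),
      IsOp θ ((sumRep ρ γ).baseChange (AlgebraicClosure ℚ_[ℓ])) Y ∧
        LinearMap.trace (AlgebraicClosure ℚ_[ℓ]) _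
          (Z.baseChange (AlgebraicClosure ℚ_[ℓ]) * Y) ≠ 0

theorem det_iff (hρ : ∀ i, Continuous fun g => LinearMap.toMatrix' (ρ i g))
    (h𝔤 : IsMotivic ρ 𝔤) (hD : DetC ρ 𝔤) :
    AllT (sumRep ρ) 𝔤 ↔ FiniteIndexSemisimple (sumRep ρ) ∧ HomT ρ 𝔤 ∧ HomEndT ρ 𝔤 := by
  refine ⟨fun h => ⟨h.1, h.hom h𝔤, h.homEnd h𝔤⟩, ?_⟩
  rintro ⟨hss, h1, h2⟩
  obtain ⟨L, p, hL, hLie, hnd, hp, hAd, hΔ⟩ := exists_Lp hρ hss
  have hd : ∀ X ∈ 𝔤, Diag X := fun X hX => h𝔤.parts X hX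
  have hLG := L_le h𝔤 hL
  have hP := projT_of_homEndT hd h𝔤.bracket hnd hLG hAd hp h2
  have hc := core hLie hnd hp hΔ (endTate_of_homT hd h1) hP
  have hL' : ∀ X, X ∈ L ↔ X ∈ LT (sumRep ρ) := fun X =>
    ⟨fun hX => mem_LT_of_semisimple (sumRep ρ) hss ((hL X).1 hX), fun hX => (hL X).2 hX.2⟩
  refine allT_of_le h𝔤 hss hL fun X hX => ?_
  by_contra hXL
  have hZ : X - p X ≠ 0 := fun h0 => hXL (by rw [sub_eq_zero.1 h0]; exact (hp X).1)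
  obtain ⟨γ, θ, Y, hY, ht⟩ := hD (X - p X) (𝔤.sub_mem hX (hLG (hp X).1))
    (fun Y hY => hc X hX Y hY) hZ
  have hYL := op_mem (AlgebraicClosure ℚ_[ℓ]) hL' γ θ Y hY
  refine ht ?_
  clear ht hY
  induction hYL using Submodule.span_induction with
  | mem s hs =>
    obtain ⟨W, hW, rfl⟩ := hs
    rw [← bc_mul, LinearMap.trace_baseChange, (hp X).2 W hW, map_zero]
  | zero => rw [mul_zero, map_zero]
  | add x y _ _ hx hy => rw [mul_add, map_add, hx, hy, add_zero]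
  | smul c x _ hx => rw [mul_smul_comm, map_smul, hx, smul_zero]

/-- The four-variable form. -/
theorem four (h𝔤 : IsMotivic ρ 𝔤)
    (h : ∀ φ : Tensor ℚ_[ℓ] (∀ i, Fin (n i) → ℚ_[ℓ]) 4, TateTensor (sumRep ρ) φ →
      ∀ X ∈ 𝔤, KillsTensor X φ) : HomT ρ 𝔤 ∧ HomEndT ρ 𝔤 := by
  refine ⟨homT_of (fun X hX => h𝔤.parts X hX) ?_, homEndT_of (fun X hX => h𝔤.parts X hX) h⟩
  rintro P ⟨Δ, hΔ, hP⟩ X hX
  exact kills_ten1 (h _ (tate_ten1 (sumRep ρ) hΔ hP) X hX)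

/-- **One class.** -/
theorem one_class (hρ : ∀ i, Continuous fun g => LinearMap.toMatrix' (ρ i g))
    (h𝔤 : IsMotivic ρ 𝔤) (hss : FiniteIndexSemisimple (sumRep ρ)) :
    ∃ (L : Submodule ℚ_[ℓ] (End ℚ_[ℓ] (∀ i, Fin (n i) → ℚ_[ℓ])))
      (p : End ℚ_[ℓ] (End ℚ_[ℓ] (∀ i, Fin (n i) → ℚ_[ℓ]))),
      IsTL (sumRep ρ) L ∧ IsOrthProj L p ∧
      (∀ γ Y, p (sumRep ρ γ * Y * sumRep ρ γ⁻¹) = sumRep ρ γ * p Y * sumRep ρ γ⁻¹) ∧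
      (∀ X : End ℚ_[ℓ] (∀ i, Fin (n i) → ℚ_[ℓ]),
        ((∀ P : End ℚ_[ℓ] (∀ i, Fin (n i) → ℚ_[ℓ]),
          (∃ Δ : Subgroup Γ, Δ.FiniteIndex ∧ ∀ γ ∈ Δ, P * sumRep ρ γ = sumRep ρ γ * P) →
          X * P = P * X) ∧ ∀ Y, p (X * Y - Y * X) = X * p Y - p Y * X) ↔
        ∃ Z ∈ L, (∃ Δ : Subgroup Γ, Δ.FiniteIndex ∧
          ∀ γ ∈ Δ, (X - Z) * sumRep ρ γ = sumRep ρ γ * (X - Z)) ∧
          ∀ P : End ℚ_[ℓ] (∀ i, Fin (n i) → ℚ_[ℓ]),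
          (∃ Δ : Subgroup Γ, Δ.FiniteIndex ∧ ∀ γ ∈ Δ, P * sumRep ρ γ = sumRep ρ γ * P) →
          (X - Z) * P = P * (X - Z)) ∧
      (HomT ρ 𝔤 → (ProjT 𝔤 p ↔ ∀ X ∈ 𝔤, ∃ Z ∈ L, ∀ Y ∈ 𝔤, (X - Z) * Y = Y * (X - Z))) ∧
      (AllT (sumRep ρ) 𝔤 ↔ HomT ρ 𝔤 ∧ ProjT 𝔤 p ∧ AbT (sumRep ρ) 𝔤) := by
  obtain ⟨L, p, hL, hLie, hnd, hp, hAd, hΔ⟩ := exists_Lp hρ hss
  have hd : ∀ X ∈ 𝔤, Diag X := fun X hX => h𝔤.parts X hX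
  have hLG := L_le h𝔤 hL
  refine ⟨L, p, hL, hp, fun γ Y => ?_, fun X => ⟨fun h => ?_, ?_⟩, fun hH => ⟨fun hP X hX => ?_,
    fun h X hX Y => ?_⟩, fun h => ⟨h.hom h𝔤, ?_, h.ab⟩, ?_⟩
  · rw [mul_assoc, mul_assoc]
    exact proj_equi hnd hAd hp γ Y
  · have h1 := decomp_gen hL hLie hnd hp hΔ h.1 h.2
    exact ⟨p X, (hp X).1, h1⟩
  · rintro ⟨Z, hZ, ⟨Δ, hΔ', hc⟩, hP⟩
    refine ⟨fun P hPΔ => ?_, fun Y => comm_of_decomp hLie hnd hp hZ (fun Y hY => ?_) Y⟩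
    · obtain ⟨Δ', hΔ'', hPΔ⟩ := hPΔ
      have h1 := hP P ⟨Δ', hΔ'', hPΔ⟩
      have h2 := tate_comm (sumRep ρ) ((hL Z).1 hZ) hΔ'' hPΔ
      rw [sub_mul, mul_sub, h2] at h1
      exact sub_left_injective h1
    · exact (tate_comm (sumRep ρ) ((hL Y).1 hY) hΔ' hc).symm
  · exact ⟨p X, (hp X).1, core hLie hnd hp hΔ (endTate_of_homT hd hH) hP X hX⟩
  · obtain ⟨Z, hZ, hc⟩ := h X hX
    exact comm_of_decomp hLie hnd hp hZ (fun Y hY => hc Y (hLG hY)) Y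
  · exact projT_of_homEndT hd h𝔤.bracket hnd hLG hAd hp (h.homEnd h𝔤)
  · rintro ⟨h1, hP, h3⟩
    have hc := core hLie hnd hp hΔ (endTate_of_homT hd h1) hP
    exact allT_of_ab h𝔤 hss hL (bracket_mem hLG hLie hp hc) h3

end motivic

end Pool.Agent.K6.H92.D4

end
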