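import Pool.Agent.R913.Adj.Semi

set_option autoImplicit false
set_option linter.unusedSectionVars false
set_option linter.unusedVariables false

/-!
# Tate tensors of degree four and the Lie algebra of the Tate tensors
-/

open Module

noncomputable section

namespace Pool.Agent.K6.H92.D4

open Pool.Agent.Y114.RM Pool.Agent.Y114.TF Pool.Agent.H204R3.GP Pool.Agent.R913.Adj Pool.Agent

section alg

variable {k V : Type} [Field k] [AddCommGroup V] [Module k V]

/-- `p` is the projection of `End V` onto `L`, orthogonal with respect to the trace form. -/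
def IsOrthProj (L : Submodule k (End k V)) (p : End k (End k V)) : Prop :=
  ∀ X, p X ∈ L ∧ ∀ Y ∈ L, LinearMap.trace k V ((X - p X) * Y) = 0

variable [FiniteDimensional k V]

theorem exists_proj {L : Submodule k (End k V)} (hL : NonDeg L) : ∃ p, IsOrthProj L p := by
  let T : End k V →ₗ[k] Dual k L :=
    { toFun := fun X => (LinearMap.trace k V) ∘ₗ (LinearMap.mulLeft k X) ∘ₗ L.subtype
      map_add' := fun X Y => LinearMap.ext fun Z => by
        change LinearMap.trace k V ((X + Y) * Z.1) = LinearMap.trace k V (X * Z.1) +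
          LinearMap.trace k V (Y * Z.1)
        rw [add_mul, map_add]
      map_smul' := fun c X => LinearMap.ext fun Z => by
        change LinearMap.trace k V ((c • X) * Z.1) = c • LinearMap.trace k V (X * Z.1)
        rw [smul_mul_assoc, map_smul] }
  have hT : ∀ X (Z : L), T X Z = LinearMap.trace k V (X * Z.1) := fun X Z => rfl
  have hinj : Function.Injective (T ∘ₗ L.subtype) := by
    rw [injective_iff_map_eq_zero]
    intro X hX
    refine Subtype.ext (hL X.1 X.2 fun Y hY => ?_)
    have h1 := LinearMap.congr_fun hX ⟨Y, hY⟩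
    exact h1
  let e : L ≃ₗ[k] Dual k L := LinearMap.linearEquivOfInjective (T ∘ₗ L.subtype) hinj
    (Subspace.dual_finrank_eq).symm
  refine ⟨L.subtype ∘ₗ e.symm.toLinearMap ∘ₗ T, fun X => ⟨(e.symm (T X)).2, fun Y hY => ?_⟩⟩
  have h1 : e (e.symm (T X)) = T X := e.apply_symm_apply _
  have h2 : T (e.symm (T X)).1 ⟨Y, hY⟩ = T X ⟨Y, hY⟩ := LinearMap.congr_fun h1 ⟨Y, hY⟩
  rw [hT, hT] at h2
  change LinearMap.trace k V ((X - (e.symm (T X)).1) * Y) = 0
  rw [sub_mul, map_sub, h2, sub_self]

theorem IsOrthProj.unique {L : Submodule k (End k V)} (hL : NonDeg L) {p : End k (End k V)}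
    (hp : IsOrthProj L p) {X Z : End k V} (hZ : Z ∈ L)
    (h : ∀ Y ∈ L, LinearMap.trace k V ((X - Z) * Y) = 0) : p X = Z := by
  have h1 : Z - p X = 0 := by
    refine hL _ (L.sub_mem hZ (hp X).1) fun Y hY => ?_
    have h2 := (hp X).2 Y hY
    have h3 := h Y hY
    rw [sub_mul, map_sub] at h2 h3 ⊢
    rw [sub_eq_zero] at h2 h3 ⊢
    rw [← h2, ← h3]
  exact (sub_eq_zero.1 h1).symm

theorem IsOrthProj.self {L : Submodule k (End k V)} (hL : NonDeg L) {p : End k (End k V)}
    (hp : IsOrthProj L p) {X : End k V} (hX : X ∈ L) : p X = X :=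
  hp.unique hL hX fun Y _ => by rw [sub_self, zero_mul, map_zero]

/-- If `X` commutes with the orthogonal projection then it is the sum of an element of `L` and of
an endomorphism which commutes with `L`. -/
theorem decomp {L : Submodule k (End k V)} (hLie : IsLie L) (hL : NonDeg L)
    {p : End k (End k V)} (hp : IsOrthProj L p) {X : End k V}
    (hX : ∀ Y, p (X * Y - Y * X) = X * p Y - p Y * X) :
    ∀ Y ∈ L, (X - p X) * Y = Y * (X - p X) := by
  intro Y hY
  have h1 : X * Y - Y * X ∈ L := by
    have h2 := hX Y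
    rw [hp.self hL hY] at h2
    rw [← h2]
    exact (hp _).1
  have h3 : (X - p X) * Y - Y * (X - p X) ∈ L := by
    have h4 := L.sub_mem h1 (hLie _ (hp X).1 _ hY)
    have h5 : X * Y - Y * X - (p X * Y - Y * p X) = (X - p X) * Y - Y * (X - p X) := by
      rw [sub_mul, mul_sub]
      abel
    rwa [h5] at h4
  have h6 : (X - p X) * Y - Y * (X - p X) = 0 := by
    refine hL _ h3 fun Z hZ => ?_
    have h7 := (hp X).2 _ (hLie _ hY _ hZ)
    have h8 : ∀ c : End k V, LinearMap.trace k V ((c * Y - Y * c) * Z) =
        LinearMap.trace k V (c * (Y * Z - Z * Y)) := by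
      intro c
      rw [sub_mul, mul_sub, map_sub, map_sub, mul_assoc, mul_assoc Y, ← mul_assoc c Z Y,
        LinearMap.trace_mul_comm k Y]
    rw [h8, h7]
  exact sub_eq_zero.1 h6

/-- Conversely such sums commute with the orthogonal projection. -/
theorem comm_of_decomp {L : Submodule k (End k V)} (hLie : IsLie L) (hL : NonDeg L)
    {p : End k (End k V)} (hp : IsOrthProj L p) {X Z : End k V} (hZ : Z ∈ L)
    (hc : ∀ Y ∈ L, (X - Z) * Y = Y * (X - Z)) (Y : End k V) :
    p (X * Y - Y * X) = X * p Y - p Y * X := by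
  have hXY : ∀ Y ∈ L, X * Y - Y * X = Z * Y - Y * Z := by
    intro Y hY
    have h1 := hc Y hY
    rw [sub_mul, mul_sub] at h1
    have h2 : X * Y - Y * X - (Z * Y - Y * Z) = (X * Y - Z * Y) - (Y * X - Y * Z) := by abel
    rw [← sub_eq_zero, h2, h1, sub_self]
  refine hp.unique hL ?_ fun W hW => ?_
  · rw [hXY _ (hp Y).1]
    exact hLie _ hZ _ (hp Y).1
  · have h1 : X * W - W * X ∈ L := by
      rw [hXY _ hW]
      exact hLie _ hZ _ hW
    have h2 := (hp Y).2 _ h1
    have h3 : LinearMap.trace k V ((X * Y - Y * X - (X * p Y - p Y * X)) * W) =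
        - LinearMap.trace k V ((Y - p Y) * (X * W - W * X)) := by
      have e1 : (X * Y - Y * X - (X * p Y - p Y * X)) * W =
          X * ((Y - p Y) * W) - (Y - p Y) * (X * W) := by
        noncomm_ring
      have e2 : (Y - p Y) * (X * W - W * X) =
          (Y - p Y) * (X * W) - ((Y - p Y) * W) * X := by
        noncomm_ring
      rw [e1, e2, map_sub, map_sub, LinearMap.trace_mul_comm k X]
      ring
    rw [h3, h2, neg_zero]

end alg

section tens

variable {k V : Type} [Field k] [AddCommGroup V] [Module k V]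

/-- The endomorphism of rank one attached to a vector and a linear form. -/
def rk (x : V) (ξ : Dual k V) : End k V := (LinearMap.toSpanSingleton k V x) ∘ₗ ξ

theorem rk_apply (x : V) (ξ : Dual k V) (y : V) : rk x ξ y = ξ y • x := rfl

theorem rk_add_left (x x' : V) (ξ : Dual k V) : rk (x + x') ξ = rk x ξ + rk x' ξ :=
  LinearMap.ext fun y => by
    rw [rk_apply, LinearMap.add_apply, rk_apply, rk_apply, smul_add]

theorem rk_smul_left (c : k) (x : V) (ξ : Dual k V) : rk (c • x) ξ = c • rk x ξ :=
  LinearMap.ext fun y => by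
    rw [rk_apply, LinearMap.smul_apply, rk_apply, smul_comm]

theorem rk_add_right (x : V) (ξ ξ' : Dual k V) : rk x (ξ + ξ') = rk x ξ + rk x ξ' :=
  LinearMap.ext fun y => by
    rw [rk_apply, LinearMap.add_apply, LinearMap.add_apply, rk_apply, rk_apply, add_smul]

theorem rk_smul_right (c : k) (x : V) (ξ : Dual k V) : rk x (c • ξ) = c • rk x ξ :=
  LinearMap.ext fun y => by
    rw [rk_apply, LinearMap.smul_apply, LinearMap.smul_apply, rk_apply, smul_eq_mul, mul_smul]

theorem mul_rk (A : End k V) (x : V) (ξ : Dual k V) : A * rk x ξ = rk (A x) ξ :=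
  LinearMap.ext fun y => by
    rw [Module.End.mul_apply, rk_apply, rk_apply, map_smul]

theorem rk_mul (A : End k V) (x : V) (ξ : Dual k V) : rk x ξ * A = rk x (ξ ∘ₗ A) :=
  LinearMap.ext fun y => by
    rw [Module.End.mul_apply, rk_apply, rk_apply]
    rfl

/-- The endomorphisms are spanned by those of rank one. -/
theorem ext_rk [FiniteDimensional k V] {W : Type} [AddCommGroup W] [Module k W]
    {f g : End k V →ₗ[k] W} (h : ∀ x ξ, f (rk x ξ) = g (rk x ξ)) : f = g := by
  refine LinearMap.ext fun X => ?_
  let b := Module.finBasis k V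
  have hX : X = ∑ i, rk (X (b i)) (b.coord i) := by
    refine b.ext fun j => ?_
    rw [LinearMap.sum_apply, Finset.sum_eq_single j]
    · rw [rk_apply, Basis.coord_apply, Basis.repr_self, Finsupp.single_eq_same, one_smul]
    · intro i _ hi
      rw [rk_apply, Basis.coord_apply, Basis.repr_self, Finsupp.single_eq_of_ne, zero_smul]
      exact hi
    · intro hj
      exact absurd (Finset.mem_univ _) hj
  rw [hX, map_sum, map_sum]
  exact Finset.sum_congr rfl fun i _ => h _ _

/-- The tensor in four variables attached to an endomorphism of `End V`. -/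
def ten (p : End k (End k V)) : Tensor k V 4 :=
  MultilinearMap.mk' (fun v => (v 3).2 (p (rk (v 0).1 (v 1).2) (v 2).1))
    (fun v i x y => by
      fin_cases i <;>
      simp [rk_add_left, rk_add_right])
    (fun v i c x => by
      fin_cases i <;>
      simp [rk_smul_left, rk_smul_right])

end tens

end Pool.Agent.K6.H92.D4

end
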