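import Pool.Agent.K6.H92.Deg4
import Pool.Agent.R918.Ell

set_option autoImplicit false
set_option linter.unusedSectionVars false
set_option linter.unusedVariables false

/-!
# Tate tensors of degree four and the Lie algebra of the Tate tensors, second part
-/

open Module

noncomputable section

namespace Pool.Agent.K6.H92.D4

open Pool.Agent.Y114.RM Pool.Agent.Y114.TF Pool.Agent.H204R3.GP Pool.Agent.R913.Adj Pool.Agent

section tens

variable {k V : Type} [Field k] [AddCommGroup V] [Module k V]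

theorem ten_apply (p : End k (End k V)) (v : Fin 4 → V × Dual k V) :
    ten p v = (v 3).2 (p (rk (v 0).1 (v 1).2) (v 2).1) := rfl

theorem kills_ten [FiniteDimensional k V] {p : End k (End k V)} {X : End k V}
    (h : KillsTensor X (ten p)) (Y : End k V) :
    p (X * Y - Y * X) = X * p Y - p Y * X := by
  let f : End k V →ₗ[k] End k V :=
    p ∘ₗ (LinearMap.mulLeft k X - LinearMap.mulRight k X)
  let g : End k V →ₗ[k] End k V :=
    (LinearMap.mulLeft k X - LinearMap.mulRight k X) ∘ₗ p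
  have hfg : f = g := by
    refine ext_rk fun x ξ => ?_
    change p (X * rk x ξ - rk x ξ * X) = X * p (rk x ξ) - p (rk x ξ) * X
    refine LinearMap.ext fun y => ?_
    rw [← sub_eq_zero, ← Module.forall_dual_apply_eq_zero_iff k]
    intro η
    have h1 := h ![(x, 0), (0, ξ), (y, 0), (0, η)]
    rw [Fin.sum_univ_four] at h1
    simp only [ten_apply, Function.update_apply] at h1
    simp only [Matrix.cons_val, Fin.isValue, lie, LinearMap.prodMap_apply, if_true, if_false,
      Fin.reduceEq, map_zero, LinearMap.neg_apply] at h1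
    rw [mul_rk, rk_mul, map_sub p, LinearMap.sub_apply, LinearMap.sub_apply,
      Module.End.mul_apply, Module.End.mul_apply, map_sub η, map_sub η, map_sub η]
    have e1 : rk x (-(X.dualMap ξ)) = - rk x (ξ ∘ₗ X) := by
      rw [← neg_one_smul k, rk_smul_right, neg_one_smul]
      rfl
    rw [e1, map_neg, LinearMap.neg_apply, map_neg] at h1
    have e2 : (X.dualMap η) (p (rk x ξ) y) = η (X (p (rk x ξ) y)) := rfl
    rw [e2] at h1
    linear_combination h1
  exact LinearMap.congr_fun hfg Y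

theorem ten_kills {p : End k (End k V)} {X : End k V}
    (h : ∀ Y, p (X * Y - Y * X) = X * p Y - p Y * X) : KillsTensor X (ten p) := by
  intro v
  rw [Fin.sum_univ_four]
  simp only [ten_apply, Function.update_apply]
  simp only [Fin.isValue, lie, LinearMap.prodMap_apply, if_true, if_false,
      Fin.reduceEq, LinearMap.neg_apply]
  have e1 : rk (v 0).1 (-(X.dualMap (v 1).2)) = - rk (v 0).1 ((v 1).2 ∘ₗ X) := by
    rw [← neg_one_smul k, rk_smul_right, neg_one_smul]
    rfl
  rw [e1, map_neg, LinearMap.neg_apply, map_neg]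
  have e2 : (X.dualMap (v 3).2) (p (rk (v 0).1 (v 1).2) (v 2).1) =
    (v 3).2 (X (p (rk (v 0).1 (v 1).2) (v 2).1)) := rfl
  rw [e2]
  have h1 := h (rk (v 0).1 (v 1).2)
  rw [mul_rk, rk_mul, map_sub] at h1
  have h2 := congrArg (v 3).2 (LinearMap.congr_fun h1 (v 2).1)
  rw [LinearMap.sub_apply, LinearMap.sub_apply, Module.End.mul_apply,
      Module.End.mul_apply, map_sub (v 3).2, map_sub (v 3).2] at h2
  linear_combination h2

theorem tate_ten {Γ : Type} [Group Γ] (ρ : Representation k Γ V) {p : End k (End k V)}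
    {Δ : Subgroup Γ} (hΔ : Δ.FiniteIndex)
    (h : ∀ γ ∈ Δ, ∀ Y, p (ρ γ * (Y * ρ γ⁻¹)) = ρ γ * (p Y * ρ γ⁻¹)) : TateTensor ρ (ten p) := by
  refine ⟨Δ, hΔ, fun γ hγ v => ?_⟩
  rw [ten_apply, ten_apply]
  change (v 3).2 (ρ γ⁻¹ (p (rk (ρ γ (v 0).1) ((v 1).2 ∘ₗ ρ γ⁻¹)) (ρ γ (v 2).1))) = _
  rw [← rk_mul, ← mul_rk, mul_assoc, h γ hγ, Module.End.mul_apply, Module.End.mul_apply,
    ← Module.End.mul_apply (ρ γ⁻¹) (ρ γ), ← Module.End.mul_apply (ρ γ⁻¹) (ρ γ), rim,
    Module.End.one_apply, Module.End.one_apply]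

/-- The tensor in four variables attached to an endomorphism of `V`. -/
def ten1 (P : End k V) : Tensor k V 4 :=
  MultilinearMap.mk' (fun v => (v 1).2 (P (v 0).1) * (v 3).2 (v 2).1)
    (fun v i x y => by
      fin_cases i <;>
      simp [add_mul, mul_add])
    (fun v i c x => by
      fin_cases i <;>
      simp [mul_assoc, mul_left_comm])

theorem ten1_apply (P : End k V) (v : Fin 4 → V × Dual k V) :
    ten1 P v = (v 1).2 (P (v 0).1) * (v 3).2 (v 2).1 := rfl

theorem tate_ten1 {Γ : Type} [Group Γ] (ρ : Representation k Γ V) {P : End k V}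
    {Δ : Subgroup Γ} (hΔ : Δ.FiniteIndex) (h : ∀ γ ∈ Δ, P * ρ γ = ρ γ * P) :
    TateTensor ρ (ten1 P) := by
  refine ⟨Δ, hΔ, fun γ hγ v => ?_⟩
  rw [ten1_apply, ten1_apply]
  change (v 1).2 (ρ γ⁻¹ (P (ρ γ (v 0).1))) * (v 3).2 (ρ γ⁻¹ (ρ γ (v 2).1)) = _
  rw [← Module.End.mul_apply P, h γ hγ, Module.End.mul_apply, ← Module.End.mul_apply (ρ γ⁻¹) (ρ γ),
    ← Module.End.mul_apply (ρ γ⁻¹) (ρ γ), rim, Module.End.one_apply, Module.End.one_apply]

theorem kills_ten1 {P X : End k V} (h : KillsTensor X (ten1 P)) : X * P = P * X := by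
  by_cases hV : ∀ y : V, y = 0
  · refine LinearMap.ext fun x => ?_
    rw [hV ((X * P) x), hV ((P * X) x)]
  push Not at hV
  obtain ⟨y, hy⟩ := hV
  have h0 : ∃ η : Dual k V, η y ≠ 0 := by
    by_contra hcon
    push Not at hcon
    exact hy ((Module.forall_dual_apply_eq_zero_iff k y).1 hcon)
  obtain ⟨η, hη⟩ := h0
  refine LinearMap.ext fun x => ?_
  rw [← sub_eq_zero, ← Module.forall_dual_apply_eq_zero_iff k]
  intro ξ
  have h1 := h ![(x, 0), (0, ξ), (y, 0), (0, η)]
  rw [Fin.sum_univ_four] at h1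
  simp only [ten1_apply, Function.update_apply] at h1
  simp only [Matrix.cons_val, Fin.isValue, lie, LinearMap.prodMap_apply, if_true, if_false,
      Fin.reduceEq, map_zero, LinearMap.neg_apply] at h1
  have e1 : (X.dualMap ξ) (P x) = ξ (X (P x)) := rfl
  have e2 : (X.dualMap η) y = η (X y) := rfl
  rw [e1, e2] at h1
  have h2 : (ξ (X (P x)) - ξ (P (X x))) * η y = 0 := by linear_combination -h1
  rcases mul_eq_zero.1 h2 with h3 | h3
  · rw [map_sub, Module.End.mul_apply, Module.End.mul_apply]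
    exact h3
  · exact absurd h3 hη

end tens

section equi

variable {k V Γ : Type} [Field k] [AddCommGroup V] [Module k V] [FiniteDimensional k V] [Group Γ]
  {ρ : Representation k Γ V}

theorem proj_equi {L : Submodule k (End k V)} (hL : NonDeg L)
    (hAd : ∀ γ, ∀ X ∈ L, AdE (ρ γ) (ρ γ⁻¹) X ∈ L) {p : End k (End k V)} (hp : IsOrthProj L p)
    (γ : Γ) (Y : End k V) : p (ρ γ * (Y * ρ γ⁻¹)) = ρ γ * (p Y * ρ γ⁻¹) := by
  refine hp.unique hL ?_ fun W hW => ?_
  · have := hAd γ _ (hp Y).1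
    rwa [AdE_apply] at this
  · have h1 := hAd γ⁻¹ _ hW
    rw [AdE_apply, inv_inv] at h1
    have h2 := (hp Y).2 _ h1
    rw [← h2]
    have e1 : (ρ γ * (Y * ρ γ⁻¹) - ρ γ * (p Y * ρ γ⁻¹)) * W =
        ρ γ * ((Y - p Y) * (ρ γ⁻¹ * W)) := by
      simp only [mul_assoc, sub_mul, mul_sub]
    rw [e1, LinearMap.trace_mul_comm k (ρ γ)]
    simp only [mul_assoc]

end equi

end Pool.Agent.K6.H92.D4

end
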