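import Pool.Agent.K6.H92.Deg4c


set_option autoImplicit false
set_option linter.unusedSectionVars false
set_option linter.unusedVariables false

/-!
# The degree-four principle
-/

open Module

noncomputable section

namespace Pool.Agent.K6.H92.D4

open Pool.Agent.Y114.RM Pool.Agent.Y114.TF Pool.Agent.H204R3.GP Pool.Agent.R913.Adj Pool.Agent

section gen

variable {k : Type} [Field k] {ι : Type} [Fintype ι] [DecidableEq ι] {V : ι → Type}
  [∀ i, AddCommGroup (V i)] [∀ i, Module k (V i)] {Γ : Type} [Group Γ]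
  (ρ : ∀ i, Representation k Γ (V i)) (𝔤 : Submodule k (End k (∀ i, V i)))

/-- The Tate conjecture for `Hom (M i, M j)`. -/
def HomT : Prop := ∀ (i j : ι) (P : V i →ₗ[k] V j),
  (∃ Δ : Subgroup Γ, Δ.FiniteIndex ∧ ∀ γ ∈ Δ, P ∘ₗ ρ i γ = ρ j γ ∘ₗ P) →
  ∀ X ∈ 𝔤, P ∘ₗ cmp i X = cmp j X ∘ₗ P

/-- The Tate conjecture for `Hom (End (M i), End (M j))`. -/
def HomEndT : Prop := ∀ (i j : ι) (T : End k (V i) →ₗ[k] End k (V j)),
  (∃ Δ : Subgroup Γ, Δ.FiniteIndex ∧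
    ∀ γ ∈ Δ, ∀ Y, T (ρ i γ * Y * ρ i γ⁻¹) = ρ j γ * T Y * ρ j γ⁻¹) →
  ∀ X ∈ 𝔤, ∀ Y, T (cmp i X * Y - Y * cmp i X) = cmp j X * T Y - T Y * cmp j X

/-- The projection is equivariant under `𝔤`. -/
def ProjT (p : End k (End k (∀ i, V i))) : Prop :=
  ∀ X ∈ 𝔤, ∀ Y, p (X * Y - Y * X) = X * p Y - p Y * X

variable {ρ 𝔤}

theorem endTate_of_homT (hd : ∀ X ∈ 𝔤, Diag X) (h : HomT ρ 𝔤) :
    R918.Ell.EndTate (sumRep ρ) 𝔤 := by
  rintro P ⟨Δ, hΔ, hP⟩ X hX
  have h1 : ∀ i j, (LinearMap.proj j ∘ₗ P ∘ₗ LinearMap.single k V i) ∘ₗ cmp i X =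
      cmp j X ∘ₗ (LinearMap.proj j ∘ₗ P ∘ₗ LinearMap.single k V i) := by
    intro i j
    refine h i j _ ⟨Δ, hΔ, fun γ hγ => LinearMap.ext fun x => ?_⟩ X hX
    change P (Pi.single i (ρ i γ x)) j = ρ j γ (P (Pi.single i x) j)
    have h2 := LinearMap.congr_fun (hP γ hγ) (Pi.single i x)
    rw [Module.End.mul_apply, Module.End.mul_apply, (diag_sum ρ γ).single, cmp_sum] at h2
    rw [h2]
    rfl
  have h3 : ∀ (x : ∀ i, V i) j, P x j = ∑ i, P (Pi.single i (x i)) j := by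
    intro x j
    conv_lhs => rw [← Finset.univ_sum_single x]
    rw [map_sum, Finset.sum_apply]
  refine LinearMap.ext fun x => funext fun j => ?_
  rw [Module.End.mul_apply, Module.End.mul_apply, (hd X hX).apply, h3, h3, map_sum]
  refine Finset.sum_congr rfl fun i _ => ?_
  have h4 := LinearMap.congr_fun (h1 i j) (x i)
  rw [(hd X hX).apply]
  exact h4.symm

theorem homT_of (hd : ∀ X ∈ 𝔤, Diag X) (h : R918.Ell.EndTate (sumRep ρ) 𝔤) : HomT ρ 𝔤 := by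
  rintro i j P ⟨Δ, hΔ, hP⟩ X hX
  have h1 := h (LinearMap.single k V j ∘ₗ P ∘ₗ LinearMap.proj i) ⟨Δ, hΔ, fun γ hγ => by
    refine LinearMap.ext fun x => ?_
    rw [Module.End.mul_apply, Module.End.mul_apply]
    change Pi.single j (P (ρ i γ (x i))) = sumRep ρ γ (Pi.single j (P (x i)))
    rw [(diag_sum ρ γ).single, cmp_sum]
    have h2 := LinearMap.congr_fun (hP γ hγ) (x i)
    change P (ρ i γ (x i)) = ρ j γ (P (x i)) at h2
    rw [h2]⟩ X hX
  refine LinearMap.ext fun x => ?_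
  have h2 := congrFun (LinearMap.congr_fun h1 (Pi.single i x)) j
  rw [Module.End.mul_apply, Module.End.mul_apply, (hd X hX).single] at h2
  change X (Pi.single j (P ((Pi.single i x : ∀ i, V i) i))) j =
    (Pi.single j (P ((Pi.single i (cmp i X x) : ∀ i, V i) i)) : ∀ i, V i) j at h2
  rw [Pi.single_eq_same, Pi.single_eq_same, Pi.single_eq_same, (hd X hX).single,
    Pi.single_eq_same] at h2
  exact h2.symm

variable [∀ i, FiniteDimensional k (V i)]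

theorem homEndT_of (hd : ∀ X ∈ 𝔤, Diag X)
    (h : ∀ φ : Tensor k (∀ i, V i) 4, TateTensor (sumRep ρ) φ → ∀ X ∈ 𝔤, KillsTensor X φ) :
    HomEndT ρ 𝔤 := by
  rintro i j T ⟨Δ, hΔ, hT⟩ X hX Y
  let q : End k (End k (∀ i, V i)) := blk j ∘ₗ T ∘ₗ cmp i
  have hq : ∀ Z, q Z = blk j (T (cmp i Z)) := fun Z => rfl
  have h1 : TateTensor (sumRep ρ) (ten q) := by
    refine tate_ten (sumRep ρ) hΔ fun γ hγ Z => ?_
    rw [hq, hq, cmp_mul_left (diag_sum ρ γ), cmp_mul_right (diag_sum ρ _), cmp_sum, cmp_sum,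
      ← mul_assoc, hT γ hγ, blk_mul (diag_sum ρ _), mul_blk (diag_sum ρ γ), cmp_sum, cmp_sum,
      mul_assoc]
  have h2 := kills_ten (h _ h1 X hX) (blk i Y)
  have h3 := congrArg (cmp j) h2
  rw [hq, hq, cmp_blk, map_sub (cmp j), cmp_mul_left (hd X hX), cmp_mul_right (hd X hX),
    cmp_blk, cmp_blk, map_sub (cmp i), cmp_mul_left (hd X hX), cmp_mul_right (hd X hX), cmp_blk]
    at h3
  exact h3

theorem projT_of_homEndT (hd : ∀ X ∈ 𝔤, Diag X) (hLie : IsLie 𝔤)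
    {L : Submodule k (End k (∀ i, V i))} (hL : NonDeg L) (hLG : L ≤ 𝔤)
    (hAd : ∀ γ, ∀ X ∈ L, AdE (sumRep ρ γ) (sumRep ρ γ⁻¹) X ∈ L)
    {p : End k (End k (∀ i, V i))} (hp : IsOrthProj L p) (h : HomEndT ρ 𝔤) : ProjT 𝔤 p := by
  have hdL : ∀ X ∈ L, Diag X := fun X hX => hd X (hLG hX)
  have key : ∀ X ∈ 𝔤, ∀ i (Y : End k (V i)), p (X * blk i Y - blk i Y * X) =
      X * p (blk i Y) - p (blk i Y) * X := by
    intro X hX i Y
    refine Diag.ext (hdL _ (hp _).1) (((hd X hX).mul (hdL _ (hp _).1)).sub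
      ((hdL _ (hp _).1).mul (hd X hX))) fun j => ?_
    let T : End k (V i) →ₗ[k] End k (V j) := cmp j ∘ₗ p ∘ₗ blk i
    have hT : ∀ Z, T Z = cmp j (p (blk i Z)) := fun Z => rfl
    have h1 := h i j T ⟨⊤, inferInstance, fun γ _ Z => by
      rw [hT, hT]
      have e1 : blk i (ρ i γ * Z * ρ i γ⁻¹) = sumRep ρ γ * (blk i Z * sumRep ρ γ⁻¹) := by
        rw [blk_mul (diag_sum ρ _), mul_blk (diag_sum ρ γ), cmp_sum, cmp_sum, mul_assoc]
      rw [e1, proj_equi hL hAd hp, cmp_mul_left (diag_sum ρ γ), cmp_mul_right (diag_sum ρ _),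
        cmp_sum, cmp_sum, mul_assoc]⟩ X hX Y
    rw [hT, hT, map_sub (blk i), ← mul_blk (hd X hX), ← blk_mul (hd X hX)] at h1
    rw [h1, map_sub (cmp j), cmp_mul_left (hd X hX), cmp_mul_right (hd X hX)]
  intro X hX Z
  rw [proj_diag hL hdL hp, proj_diag hL hdL hp Z, Finset.mul_sum, Finset.sum_mul,
    ← Finset.sum_sub_distrib]
  refine Finset.sum_congr rfl fun i _ => ?_
  rw [← key X hX i, map_sub (cmp i), cmp_mul_left (hd X hX), cmp_mul_right (hd X hX),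
    map_sub (blk i), ← mul_blk (hd X hX), ← blk_mul (hd X hX)]

end gen

end Pool.Agent.K6.H92.D4

end
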